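import Pool.Agent.Lib.MP_147277_co.Transfer

set_option autoImplicit false

namespace Pool.Agent.Results.MP_147277_co.AllLarge

/-- For all sufficiently large `n` there is a permutation `π` of `ZMod n` such that every triple
`(a, b, c)`, not all equal, for which the least absolute residue of `a + c - 2 b` has absolute
value at most one is sent to a triple for which the least absolute residue of
`π a + π c - 2 π b` has absolute value at least two. -/
theorem result : ∃ N : ℕ, ∀ n : ℕ, N ≤ n →
    ∃ π : Equiv.Perm (ZMod n), ∀ a b c : ZMod n, ¬ (a = b ∧ b = c) →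
      |(a + c - 2 * b).valMinAbs| ≤ 1 → 2 ≤ |(π a + π c - 2 * π b).valMinAbs| := by
  obtain ⟨X, hX0, hX⟩ := Pool.Agent.Lib.MP_147277_co.exists_cyclic
  refine ⟨X.toNat, fun n hn => ?_⟩
  obtain ⟨f, hf⟩ := hX n (by omega)
  exact Pool.Agent.Lib.MP_147277_co.exists_perm (by omega) hf

end Pool.Agent.Results.MP_147277_co.AllLarge
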