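import Pool.Agent.Lib.MP_147277_coZ.Comb

set_option autoImplicit false

namespace Pool.Agent.Results.MP_147277_co.NoneFor27

/-- There is no permutation `π` of `ZMod 27` such that every triple `(a, b, c)`, not all equal,
for which the least absolute residue of `a + c - 2 b` has absolute value at most one is sent to a
triple for which the least absolute residue of `π a + π c - 2 π b` has absolute value at least
two. -/
theorem result : ¬ ∃ π : Equiv.Perm (ZMod 27), ∀ a b c : ZMod 27, ¬ (a = b ∧ b = c) →
    |(a + c - 2 * b).valMinAbs| ≤ 1 → 2 ≤ |(π a + π c - 2 * π b).valMinAbs| := by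
  rintro ⟨π, h⟩
  exact Pool.Agent.Lib.MP_147277_coZ.no_good _ (Pool.Agent.Lib.MP_147277_coZ.gd_gr h)

end Pool.Agent.Results.MP_147277_co.NoneFor27
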